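import Pool.Agent.Lib.MP_0a3911_co.VRBasic

/-!
# From the number of subsquares of order 3 to identities
-/

set_option autoImplicit false

namespace Pool.Agent.Lib.MP_0a3911_co

open Finset

section sub

variable {α : Type*} [DecidableEq α] {L : α → α → α}

/-- rows `R` and columns `C` form a subsquare of order 3. -/
def IsSub (L : α → α → α) (R C : Finset α) : Prop :=
  R.card = 3 ∧ C.card = 3 ∧
    (Finset.image (fun q : α × α => L q.1 q.2) (R ×ˢ C)).card = 3

theorem IsSub.row_surj (hr : ∀ i, Function.Injective (L i)) {R C : Finset α}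
    (h : IsSub L R C) {x y c : α} (hx : x ∈ R) (hy : y ∈ R) (hc : c ∈ C) :
    ∃ c1 ∈ C, L x c1 = L y c := by
  have h1 : C.image (L x) ⊆ Finset.image (fun q : α × α => L q.1 q.2) (R ×ˢ C) := by
    intro s hs
    obtain ⟨c', hc', rfl⟩ := Finset.mem_image.1 hs
    exact Finset.mem_image.2 ⟨(x, c'), Finset.mem_product.2 ⟨hx, hc'⟩, rfl⟩
  have h2 : C.image (L x) = Finset.image (fun q : α × α => L q.1 q.2) (R ×ˢ C) := by
    refine Finset.eq_of_subset_of_card_le h1 ?_
    rw [h.2.2, Finset.card_image_of_injective _ (hr x), h.2.1]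
  have h3 : L y c ∈ C.image (L x) := by
    rw [h2]
    exact Finset.mem_image.2 ⟨(y, c), Finset.mem_product.2 ⟨hy, hc⟩, rfl⟩
  obtain ⟨c1, h4, h5⟩ := Finset.mem_image.1 h3
  exact ⟨c1, h4, h5⟩

/-- a set of three elements with three known distinct members. -/
theorem card3_cases {C : Finset α} (hC : C.card = 3) {a b c : α} (ha : a ∈ C) (hb : b ∈ C)
    (hc : c ∈ C) (hab : a ≠ b) (hac : a ≠ c) (hbc : b ≠ c) {d : α} (hd : d ∈ C) :
    d = a ∨ d = b ∨ d = c := by
  have h1 : ({a, b, c} : Finset α) = C := by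
    refine Finset.eq_of_subset_of_card_le ?_ ?_
    · intro x hx
      simp only [Finset.mem_insert, Finset.mem_singleton] at hx
      rcases hx with rfl | rfl | rfl <;> assumption
    · rw [hC, Finset.card_eq_three.2 ⟨a, b, c, hab, hac, hbc, rfl⟩]
  rw [← h1] at hd
  simpa using hd

theorem IsSub.struct (hr : ∀ i, Function.Injective (L i))
    (hcol : ∀ j, Function.Injective (fun i => L i j)) {R C : Finset α} (h : IsSub L R C)
    {x y c : α} (hx : x ∈ R) (hy : y ∈ R) (hxy : x ≠ y) (hc : c ∈ C) :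
    ∃ z c1 c2, z ∈ R ∧ c1 ∈ C ∧ c2 ∈ C ∧ c ≠ c1 ∧ c ≠ c2 ∧ c1 ≠ c2 ∧ z ≠ x ∧ z ≠ y ∧
      L x c1 = L y c ∧ L x c2 = L y c1 ∧ L x c = L y c2 ∧
      L z c = L x c2 ∧ L z c1 = L x c ∧ L z c2 = L x c1 := by
  have hne : ∀ c, L x c ≠ L y c := fun c e => hxy (hcol c e)
  obtain ⟨c1, hc1, e1⟩ := h.row_surj hr hx hy hc
  obtain ⟨c2, hc2, e2⟩ := h.row_surj hr hx hy hc1
  have n1 : c ≠ c1 := by rintro rfl; exact hne c e1
  have n2 : c1 ≠ c2 := by rintro rfl; exact hne c1 e2
  have n3 : c ≠ c2 := by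
    rintro rfl
    -- the third column
    obtain ⟨c', hc', hn1, hn2⟩ : ∃ c' ∈ C, c' ≠ c ∧ c' ≠ c1 := by
      by_contra hcon
      push Not at hcon
      have hsub : C ⊆ {c, c1} := by
        intro d hd
        simp only [Finset.mem_insert, Finset.mem_singleton]
        by_cases hdc : d = c
        · exact Or.inl hdc
        · exact Or.inr (hcon d hd hdc)
      have := Finset.card_le_card hsub
      rw [h.2.1] at this
      have h2 : ({c, c1} : Finset α).card ≤ 2 := Finset.card_le_two
      omega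
    obtain ⟨d, hd, e3⟩ := h.row_surj hr hx hy hc'
    rcases card3_cases h.2.1 hc hc1 hc' n1 hn1.symm hn2.symm hd with rfl | rfl | rfl
    · exact hn2 (hr y (e3.symm.trans e2))
    · exact hn1 (hr y (e3.symm.trans e1))
    · exact hne d e3
  have e3 : L x c = L y c2 := by
    obtain ⟨d, hd, e3⟩ := h.row_surj hr hy hx hc
    rcases card3_cases h.2.1 hc hc1 hc2 n1 n3 n2 hd with rfl | rfl | rfl
    · exact absurd e3.symm (hne d)
    · rw [← e2] at e3
      exact absurd (hr x e3).symm n3
    · exact e3.symm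
  obtain ⟨z, hz, hzx, hzy⟩ : ∃ z ∈ R, z ≠ x ∧ z ≠ y := by
    by_contra hcon
    push Not at hcon
    have hsub : R ⊆ {x, y} := by
      intro d hd
      simp only [Finset.mem_insert, Finset.mem_singleton]
      by_cases hdc : d = x
      · exact Or.inl hdc
      · exact Or.inr (hcon d hd hdc)
    have := Finset.card_le_card hsub
    rw [h.1] at this
    have h2 : ({x, y} : Finset α).card ≤ 2 := Finset.card_le_two
    omega
  have hzc : ∀ d, L z d ≠ L x d := fun d e => hzx (hcol d e)
  have hzc' : ∀ d, L z d ≠ L y d := fun d e => hzy (hcol d e)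
  have hcase : ∀ d ∈ C, L z d = L x c ∨ L z d = L x c1 ∨ L z d = L x c2 := by
    intro d hd
    obtain ⟨d', hd', e⟩ := h.row_surj hr hx hz hd
    rcases card3_cases h.2.1 hc hc1 hc2 n1 n3 n2 hd' with rfl | rfl | rfl
    · exact Or.inl e.symm
    · exact Or.inr (Or.inl e.symm)
    · exact Or.inr (Or.inr e.symm)
  refine ⟨z, c1, c2, hz, hc1, hc2, n1, n3, n2, hzx, hzy, e1, e2, e3, ?_, ?_, ?_⟩
  · rcases hcase c hc with e | e | e
    · exact absurd e (hzc c)
    · rw [e1] at e; exact absurd e (hzc' c)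
    · exact e
  · rcases hcase c1 hc1 with e | e | e
    · exact e
    · exact absurd e (hzc c1)
    · rw [e2] at e; exact absurd e (hzc' c1)
  · rcases hcase c2 hc2 with e | e | e
    · rw [e3] at e; exact absurd e (hzc' c2)
    · exact e
    · exact absurd e (hzc c2)

/-- a subsquare is determined by two rows and a column. -/
theorem IsSub.unique (hr : ∀ i, Function.Injective (L i))
    (hcol : ∀ j, Function.Injective (fun i => L i j)) {R C R' C' : Finset α}
    (h : IsSub L R C) (h' : IsSub L R' C')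
    {x y c : α} (hx : x ∈ R) (hy : y ∈ R) (hxy : x ≠ y) (hc : c ∈ C)
    (hx' : x ∈ R') (hy' : y ∈ R') (hc' : c ∈ C') : R = R' ∧ C = C' := by
  obtain ⟨z, c1, c2, hz, hc1, hc2, n1, n3, n2, hzx, hzy, e1, e2, e3, e4, e5, e6⟩ :=
    h.struct hr hcol hx hy hxy hc
  obtain ⟨z', c1', c2', hz', hc1', hc2', n1', n3', n2', hzx', hzy', e1', e2', e3', e4', e5', e6'⟩ :=
    h'.struct hr hcol hx' hy' hxy hc'
  have h1 : c1 = c1' := hr x (e1.trans e1'.symm)
  subst h1
  have h2 : c2 = c2' := hr x (e2.trans e2'.symm)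
  subst h2
  have h3 : z = z' := hcol c (e4.trans e4'.symm)
  subst h3
  have key : ∀ {A B : Finset α} {a b d : α}, A.card = 3 → B.card = 3 → a ∈ A → b ∈ A → d ∈ A →
      a ∈ B → b ∈ B → d ∈ B → a ≠ b → a ≠ d → b ≠ d → A = B := by
    intro A B a b d hA hB ha hb hd ha' hb' hd' hab had hbd
    refine Finset.eq_of_subset_of_card_le ?_ (by rw [hA, hB])
    intro w hw
    rcases card3_cases hA ha hb hd hab had hbd hw with rfl | rfl | rfl <;> assumption
  exact ⟨key h.1 h'.1 hx hy hz hx' hy' hz' hxy hzx.symm hzy.symm,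
    key h.2.1 h'.2.1 hc hc1 hc2 hc' hc1' hc2' n1 n3 n2⟩

end sub

/-- the property of van Rees latin squares used below. -/
def Pr {α : Type*} (L : α → α → α) : Prop :=
  ∀ x y c, x ≠ y → ∃ z c1 c2, L x c1 = L y c ∧ L x c2 = L y c1 ∧ L x c = L y c2 ∧
    L z c = L x c2 ∧ L z c1 = L x c ∧ L z c2 = L x c1

theorem pr_of_count {n : ℕ} (L : Fin n → Fin n → Fin n)
    (hr : ∀ i, Function.Injective (L i)) (hcol : ∀ j, Function.Injective (fun i => L i j))
    (hcount : 18 * ((Finset.univ : Finset (Finset (Fin n) × Finset (Fin n))).filter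
      (fun p => p.1.card = 3 ∧ p.2.card = 3 ∧
        (Finset.image (fun q : Fin n × Fin n => L q.1 q.2) (p.1 ×ˢ p.2)).card = 3)).card
      = n ^ 2 * (n - 1)) : Pr L := by
  classical
  set S := (Finset.univ : Finset (Finset (Fin n) × Finset (Fin n))).filter
      (fun p => p.1.card = 3 ∧ p.2.card = 3 ∧
        (Finset.image (fun q : Fin n × Fin n => L q.1 q.2) (p.1 ×ˢ p.2)).card = 3) with hS
  have hSub : ∀ p ∈ S, IsSub L p.1 p.2 := fun p hp => (Finset.mem_filter.1 hp).2
  let T : Finset (Fin n) × Finset (Fin n) → Finset ((Fin n × Fin n) × Fin n) :=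
    fun p => p.1.offDiag ×ˢ p.2
  have hT : ∀ p ∈ S, (T p).card = 18 := by
    intro p hp
    have h1 := hSub p hp
    simp only [T]
    rw [Finset.card_product, Finset.offDiag_card, h1.1, h1.2.1]
  have hdisj : ∀ p ∈ S, ∀ q ∈ S, p ≠ q → Disjoint (T p) (T q) := by
    intro p hp q hq hpq
    rw [Finset.disjoint_left]
    rintro ⟨⟨x, y⟩, c⟩ h1 h2
    simp only [T, Finset.mem_product, Finset.mem_offDiag] at h1 h2
    have h3 := IsSub.unique hr hcol (hSub p hp) (hSub q hq) h1.1.1 h1.1.2.1 h1.1.2.2 h1.2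
      h2.1.1 h2.1.2.1 h2.2
    exact hpq (Prod.ext h3.1 h3.2)
  have hU : (S.biUnion T).card = n ^ 2 * (n - 1) := by
    rw [Finset.card_biUnion hdisj, Finset.sum_congr rfl hT, Finset.sum_const, smul_eq_mul,
      mul_comm, hcount]
  have hV : ((Finset.univ : Finset (Fin n)).offDiag ×ˢ (Finset.univ : Finset (Fin n))).card =
      n ^ 2 * (n - 1) := by
    rw [Finset.card_product, Finset.offDiag_card, Finset.card_univ, Fintype.card_fin,
      ← Nat.mul_sub_one]
    ring
  have hsub : S.biUnion T ⊆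
      (Finset.univ : Finset (Fin n)).offDiag ×ˢ (Finset.univ : Finset (Fin n)) := by
    intro t ht
    obtain ⟨p, hp, h1⟩ := Finset.mem_biUnion.1 ht
    simp only [T, Finset.mem_product, Finset.mem_offDiag] at h1
    simp only [Finset.mem_product, Finset.mem_offDiag, Finset.mem_univ, true_and, and_true]
    exact h1.1.2.2
  have heq := Finset.eq_of_subset_of_card_le hsub (by rw [hU, hV])
  intro x y c hxy
  have hmem : ((x, y), c) ∈ S.biUnion T := by
    rw [heq]
    simp only [Finset.mem_product, Finset.mem_offDiag, Finset.mem_univ, true_and, and_true]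
    exact hxy
  obtain ⟨p, hp, h1⟩ := Finset.mem_biUnion.1 hmem
  simp only [T, Finset.mem_product, Finset.mem_offDiag] at h1
  obtain ⟨z, c1, c2, -, -, -, -, -, -, -, -, e⟩ :=
    (hSub p hp).struct hr hcol h1.1.1 h1.1.2.1 h1.1.2.2 h1.2
  exact ⟨z, c1, c2, e⟩

/-- The Steiner quasigroup of a symmetric van Rees latin square. -/
theorem exists_vr {α : Type*} [Finite α] (L : α → α → α) (hr : ∀ i, Function.Injective (L i))
    (hsymm : ∀ i j, L i j = L j i) (hP : Pr L) : ∃ m : α → α → α, VR m := by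
  -- the diagonal
  have diag : ∀ x y, x ≠ y → ∃ z, L z z = L x y ∧ L x z = L y y ∧ L y z = L x x := by
    intro x y hxy
    obtain ⟨z, c1, c2, e1, e2, e3, e4, e5, e6⟩ := hP x y y hxy
    have h1 : c2 = x := hr y (by rw [← e3, hsymm])
    subst h1
    have h2 : z = c1 := hr c2 (by rw [← e6, hsymm])
    subst h2
    exact ⟨z, e5, e1, e2.symm⟩
  have hinj : Function.Injective (fun x => L x x) := by
    intro x y hxy
    simp only at hxy
    by_contra hne
    obtain ⟨z, e1, e2, e3⟩ := diag x y hne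
    have h1 : z = x := hr x (e2.trans hxy.symm)
    subst h1
    exact hne (hr z e1)
  have hbij : Function.Bijective (fun x => L x x) := Finite.injective_iff_bijective.1 hinj
  choose m hm using fun x y => hbij.2 (L x y)
  simp only at hm
  have hi : ∀ x y c d, L x y = L c d → m x y = m c d := by
    intro x y c d h
    refine hinj ?_
    simp only
    rw [hm, hm, h]
  have idem : ∀ x, m x x = x := fun x => hinj (hm x x)
  have comm : ∀ x y, m x y = m y x := fun x y => hi _ _ _ _ (hsymm x y)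
  have inv : ∀ x y, m x (m x y) = y := by
    intro x y
    by_cases hxy : x = y
    · subst hxy
      rw [idem, idem]
    · obtain ⟨z, e1, e2, e3⟩ := diag x y hxy
      have h1 : m x y = z := hinj (by simp only; rw [hm, e1])
      rw [h1, hi x z y y e2, idem]
  have sq : SQ m := ⟨idem, comm, inv⟩
  have main : ∀ x y c, x ≠ y → m y (m x c) = m x (m y (m x (m y c))) ∧
      m c (m x (m y (m x c))) = m (m x c) (m x (m y c)) := by
    intro x y c hxy
    obtain ⟨z, c1, c2, e1, e2, e3, e4, e5, e6⟩ := hP x y c hxy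
    have h1 : c1 = m x (m y c) := by rw [← hi _ _ _ _ e1, inv]
    have h2 : c2 = m x (m y c1) := by rw [← hi _ _ _ _ e2, inv]
    have h3 : c2 = m y (m x c) := by rw [hi _ _ _ _ e3, inv]
    have h4 : m z c = m x c2 := hi _ _ _ _ e4
    have h5 : m z c1 = m x c := hi _ _ _ _ e5
    constructor
    · rw [← h3, h2, h1]
    · rw [← h1, ← h3, ← h4, ← h5, sq.inv_b, sq.inv_d]
  have hA : ∀ x y c, m x (m y (m x c)) = m y (m x (m y c)) := by
    intro x y c
    by_cases hxy : x = y
    · rw [hxy]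
    · have h1 := (main x y (m x c) hxy).1
      rw [inv] at h1
      rw [h1, inv, inv]
  refine ⟨m, sq, hA, ?_⟩
  intro x y c
  by_cases hxy : x = y
  · subst hxy
    rw [inv, sq.inv_d, sq.inv_b]
  · exact (main x y c hxy).2.symm

end Pool.Agent.Lib.MP_0a3911_co
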