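import Mathlib

/-!
# Algebra of symmetric van Rees latin squares

`VR m`: the Steiner quasigroup attached to a symmetric van Rees latin square. We derive the
identities used in the count of the order.
-/

set_option autoImplicit false

namespace Pool.Agent.Lib.MP_0a3911_co

variable {α : Type*}

/-- Steiner quasigroups. -/
structure SQ (m : α → α → α) : Prop where
  idem : ∀ x, m x x = x
  comm : ∀ x y, m x y = m y x
  inv : ∀ x y, m x (m x y) = y

/-- Steiner quasigroups satisfying the two laws `x(y(xc)) = y(x(yc))` and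
`(xc)(x(yc)) = c(x(y(xc)))`. -/
structure VR (m : α → α → α) : Prop extends SQ m where
  hA : ∀ x y c, m x (m y (m x c)) = m y (m x (m y c))
  hB : ∀ x y c, m (m x c) (m x (m y c)) = m c (m x (m y (m x c)))

namespace SQ

variable {m : α → α → α}

theorem inj (h : SQ m) {x y z : α} (hyz : m x y = m x z) : y = z := by
  rw [← h.inv x y, hyz, h.inv]

theorem inj' (h : SQ m) {x y z : α} (hyz : m y x = m z x) : y = z := by
  rw [h.comm y x, h.comm z x] at hyz
  exact h.inj hyz

theorem inv_b (h : SQ m) (x y : α) : m x (m y x) = y := by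
  rw [h.comm y x, h.inv]

theorem inv_c (h : SQ m) (x y : α) : m (m x y) x = y := by
  rw [h.comm, h.inv]

theorem inv_d (h : SQ m) (x y : α) : m (m x y) y = x := by
  rw [h.comm, h.inv_b]

/-- `m x y = x` only for `y = x`. -/
theorem eq_left (h : SQ m) {x y : α} (hxy : m x y = x) : y = x := by
  rw [← h.inv x y, hxy, h.idem]

theorem eq_right (h : SQ m) {x y : α} (hxy : m x y = y) : x = y := by
  rw [h.comm] at hxy
  exact h.eq_left hxy

end SQ

namespace VR

variable {m : α → α → α}

theorem C1 (h : VR m) (x c d : α) : m (m x c) (m x d) = m c (m (m c d) (m x d)) := by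
  have h1 := h.hB x (m c d) c
  rw [h.hA x (m c d) c, h.inv_c c d] at h1
  exact h1

theorem C2 (h : VR m) (x c d : α) : m (m x c) (m x d) = m d (m (m c d) (m x c)) := by
  rw [h.comm (m x c) (m x d), h.C1 x d c, h.comm d c]

/-- for a block `{c, d, cd}`: `τ_d τ_{cd} τ_c = τ_c τ_{cd} τ_d`. -/
theorem R2 (h : VR m) (c d x : α) :
    m d (m (m c d) (m c x)) = m c (m (m c d) (m d x)) := by
  have h1 := h.C1 x c d
  rw [h.C2 x c d, h.comm x c, h.comm x d] at h1
  exact h1

/-- mid `b`: `τ_{ab} τ_b τ_a = τ_a τ_b τ_{ab}`. -/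
theorem R2b (h : VR m) (a b x : α) :
    m (m a b) (m b (m a x)) = m a (m b (m (m a b) x)) := by
  have h1 := h.R2 a (m a b) x
  rw [h.inv a b] at h1
  exact h1

/-- mid `a`: `τ_{ab} τ_a τ_b = τ_b τ_a τ_{ab}`. -/
theorem R2a (h : VR m) (a b x : α) :
    m (m a b) (m a (m b x)) = m b (m a (m (m a b) x)) := by
  have h1 := h.R2b b a x
  rw [h.comm b a] at h1
  exact h1

/-! ### The derived operation at `v` -/

/-- the derived operation `o x y = v(x(y(xv)))`. -/
def der (m : α → α → α) (v : α) (x y : α) : α := m v (m x (m y (m x v)))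

theorem der_sq (h : VR m) (v : α) : SQ (der m v) := by
  refine ⟨?_, ?_, ?_⟩
  · intro x
    simp only [der]
    rw [h.inv, h.comm x v, h.inv]
  · intro x y
    simp only [der]
    rw [h.hA x y v]
  · intro x y
    have h1 := h.hB x y v
    simp only [der]
    rw [← h1, h.comm (m (m x v) (m x (m y v))) (m x v), h.inv, h.inv, h.comm y v, h.inv]

theorem der_v (h : VR m) (v y : α) : der m v v y = m v y := by
  simp only [der]
  rw [h.idem, h.inv, h.comm]

theorem der_aut (h : VR m) (v x y : α) :
    der m v (m v x) (m v y) = m v (der m v x y) := by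
  simp only [der]
  rw [h.inv, h.inv_c v x, h.comm (m v y) x, h.comm v x]
  have h1 := h.R2 x v (m v y)
  rw [h.inv v y] at h1
  rw [h1, h.comm (m x v) y]

theorem der_E (h : VR m) (v x y : α) :
    der m v x (der m v (m v x) (m v y)) = der m v (m v x) y := by
  rw [h.der_aut]
  have h1 : m v (der m v x y) = m x (m (m v x) y) := by
    simp only [der]
    rw [h.inv, h.comm x v, h.comm y (m v x)]
  rw [h1]
  simp only [der]
  rw [h.comm x v, h.comm (m x (m (m v x) y)) (m v x), h.hA x (m v x) (m (m v x) y),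
    h.inv (m v x) y, h.inv_c v x, h.comm y x]

end VR

/-! ### Flat triples -/

/-- Triples generating an affine plane of order 3. -/
structure Aff (m : α → α → α) (a b p : α) : Prop where
  ne : b ≠ a
  pa : p ≠ a
  pb : p ≠ b
  pab : p ≠ m a b
  e1 : m a (m b (m a p)) = m (m a b) p
  e2 : m b (m a (m b p)) = m (m a b) p
  e3 : m (m a b) (m a p) = m a (m b p)
  e4 : m (m a b) (m b p) = m b (m a p)
  e5 : m p (m a (m b p)) = m b (m a p)
  e6 : m (m a p) (m b p) = m (m a b) p

/-- for the derived operation all triples with first element `v` are flat. -/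
theorem VR.der_aff {m : α → α → α} (h : VR m) {v x y : α} (hx : x ≠ v) (hy : y ≠ v)
    (hxy : y ≠ x) (hvxy : y ≠ m v x) : Aff (VR.der m v) v x y := by
  have ho := h.der_sq v
  have e3 : ∀ x y, VR.der m v (m v x) (m v y) = m v (VR.der m v x y) := h.der_aut v
  have e1 : ∀ x y, m v (VR.der m v x (m v y)) = VR.der m v (m v x) y := by
    intro x y
    rw [← e3, h.inv]
  have e2 : ∀ x y, VR.der m v x (m v (VR.der m v x y)) = VR.der m v (m v x) y := by
    intro x y
    rw [← e3, h.der_E]
  have e4 : ∀ x y, VR.der m v (m v x) (VR.der m v x y) = VR.der m v x (m v y) := by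
    intro x y
    have h1 := h.der_E v (m v x) (m v y)
    rw [h.inv, h.inv] at h1
    exact h1
  refine ⟨hx, hy, hxy, ?_, ?_, ?_, ?_, ?_, ?_, ?_⟩
  · rw [h.der_v]; exact hvxy
  · simp only [h.der_v]
    exact e1 x y
  · simp only [h.der_v]
    exact e2 x y
  · simp only [h.der_v]
    exact e3 x y
  · simp only [h.der_v]
    exact e4 x y
  · simp only [h.der_v]
    rw [ho.comm x y, e2 y x, ho.comm]
  · simp only [h.der_v]
    rw [ho.comm x y, e4 y x, ho.comm]

/-- flat triples of the operation itself. -/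
theorem VR.aff_of {m : α → α → α} (h : VR m) {a b p : α} (hab : b ≠ a) (hpa : p ≠ a)
    (hpb : p ≠ b) (hpab : p ≠ m a b) (e1 : m a (m b (m a p)) = m (m a b) p) : Aff m a b p := by
  have e2 : m b (m a (m b p)) = m (m a b) p := by rw [← h.hA, e1]
  have key : ∀ a b : α, m a (m b (m a p)) = m (m a b) p → m (m a b) (m a p) = m a (m b p) := by
    intro a b e1
    have h1 : m (m a b) (m a (m b (m a p))) = p := by rw [e1, h.inv]
    rw [h.R2a a b (m a p)] at h1
    have h2 : m b p = m a (m (m a b) (m a p)) := by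
      conv_lhs => rw [← h1]
      rw [h.inv]
    rw [h2, h.inv]
  have e3 := key a b e1
  have e4 : m (m a b) (m b p) = m b (m a p) := by
    have := key b a (by rw [e2, h.comm b a])
    rw [h.comm b a] at this
    exact this
  refine ⟨hab, hpa, hpb, hpab, e1, e2, e3, e4, ?_, ?_⟩
  · have h1 := h.C2 (m b p) b a
    rw [h.inv_c b p, h.comm (m b p) a, h.comm b a] at h1
    rw [h1, ← e1, h.inv]
  · have h1 := h.C2 p a b
    rw [h.comm p a, h.comm p b, e3, e2] at h1
    exact h1

end Pool.Agent.Lib.MP_0a3911_co
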