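import Pool.Agent.Lib.MP_0a3911_co.VRBasic

/-!
# Classes of flat triples
-/

set_option autoImplicit false

namespace Pool.Agent.Lib.MP_0a3911_co

open Finset

/-- divisibility of sums over a set partitioned into classes of equal size. -/
theorem dvd_sum_of_classes {β : Type*} [DecidableEq β] (T : Finset β) (F : β → Finset β)
    (g : β → ℕ) (d : ℕ) (hself : ∀ p ∈ T, p ∈ F p) (hsub : ∀ p ∈ T, F p ⊆ T)
    (hcard : ∀ p ∈ T, (F p).card = d) (hF : ∀ p ∈ T, ∀ q ∈ F p, F q = F p)
    (hg : ∀ p ∈ T, ∀ q ∈ F p, g q = g p) : d ∣ ∑ p ∈ T, g p := by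
  classical
  rw [← Finset.sum_fiberwise_of_maps_to (g := F) (t := T.image F)
    (fun p hp => Finset.mem_image_of_mem F hp)]
  refine Finset.dvd_sum (fun S hS => ?_)
  obtain ⟨p, hp, rfl⟩ := Finset.mem_image.1 hS
  have h1 : T.filter (fun q => F q = F p) = F p := by
    ext q
    rw [Finset.mem_filter]
    constructor
    · rintro ⟨hq, he⟩
      rw [← he]
      exact hself q hq
    · intro hq
      exact ⟨hsub p hp hq, hF p hp q hq⟩
  rw [h1, Finset.sum_congr rfl (fun q hq => hg p hp q hq), Finset.sum_const, hcard p hp,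
    smul_eq_mul]
  exact dvd_mul_right _ _

theorem dvd_card_of_classes {β : Type*} [DecidableEq β] (T : Finset β) (F : β → Finset β)
    (d : ℕ) (hself : ∀ p ∈ T, p ∈ F p) (hsub : ∀ p ∈ T, F p ⊆ T)
    (hcard : ∀ p ∈ T, (F p).card = d) (hF : ∀ p ∈ T, ∀ q ∈ F p, F q = F p) : d ∣ T.card := by
  have h1 := dvd_sum_of_classes T F (fun _ => 1) d hself hsub hcard hF (fun _ _ _ _ => rfl)
  rwa [Finset.sum_const, smul_eq_mul, mul_one] at h1

section chart

variable {α : Type*} {m : α → α → α}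

theorem SQ.tri (h : SQ m) {x y z : α} (e : m x y = z) :
    m x y = z ∧ m y x = z ∧ m x z = y ∧ m z x = y ∧ m y z = x ∧ m z y = x := by
  subst e
  exact ⟨rfl, h.comm _ _, h.inv _ _, h.inv_c _ _, h.inv_b _ _, h.inv_d _ _⟩

/-- the chart of the plane generated by a flat triple. -/
def chart (m : α → α → α) (a b p : α) : Fin 3 × Fin 3 → α
  | (0, 0) => a
  | (1, 0) => b
  | (2, 0) => m a b
  | (0, 1) => p
  | (1, 1) => m a (m b p)
  | (2, 1) => m b (m a p)
  | (0, 2) => m a p
  | (1, 2) => m (m a b) p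
  | (2, 2) => m b p

theorem chart_hom (h : SQ m) {a b p : α} (t : Aff m a b p) (u w : Fin 3 × Fin 3) :
    m (chart m a b p u) (chart m a b p w) = chart m a b p (-u - w) := by
  have l0 := h.tri (show m a b = (m a b) from rfl)
  have l1 := h.tri (show m a p = (m a p) from rfl)
  have l2 := h.tri (show m a (m b p) = (m a (m b p)) from rfl)
  have l3 := h.tri (show m a (m b (m a p)) = (m (m a b) p) from t.e1)
  have l4 := h.tri (show m b p = (m b p) from rfl)
  have l5 := h.tri (show m b (m a p) = (m b (m a p)) from rfl)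
  have l6 := h.tri (show m b (m a (m b p)) = (m (m a b) p) from t.e2)
  have l7 := h.tri (show m (m a b) p = (m (m a b) p) from rfl)
  have l8 := h.tri (show m (m a b) (m a p) = (m a (m b p)) from t.e3)
  have l9 := h.tri (show m (m a b) (m b p) = (m b (m a p)) from t.e4)
  have l10 := h.tri (show m p (m a (m b p)) = (m b (m a p)) from t.e5)
  have l11 := h.tri (show m (m a p) (m b p) = (m (m a b) p) from t.e6)
  obtain ⟨i, j⟩ := u
  obtain ⟨k, l⟩ := w
  fin_cases i <;> fin_cases j <;> fin_cases k <;> fin_cases l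
  exacts [h.idem _, l1.1, l1.2.2.1, l0.1, l2.2.2.1, l3.2.2.1, l0.2.2.1, l3.1, l2.1,
    l1.2.1, h.idem _, l1.2.2.2.2.1, l4.2.1, l10.1, l7.2.2.2.2.1, l7.2.1, l10.2.2.1, l4.2.2.2.2.1,
    l1.2.2.2.1, l1.2.2.2.2.2, h.idem _, l5.2.1, l8.2.2.2.2.1, l11.2.2.1, l8.2.1, l5.2.2.2.2.1, l11.1,
    l0.2.1, l4.1, l5.1, h.idem _, l6.1, l6.2.2.1, l0.2.2.2.2.1, l5.2.2.1, l4.2.2.1,
    l2.2.2.2.1, l10.2.1, l8.2.2.2.2.2, l6.2.1, h.idem _, l6.2.2.2.2.1, l8.2.2.2.1, l10.2.2.2.2.1, l2.2.2.2.2.2,
    l3.2.2.2.1, l7.2.2.2.2.2, l11.2.2.2.1, l6.2.2.2.1, l6.2.2.2.2.2, h.idem _, l7.2.2.2.1, l3.2.2.2.2.2, l11.2.2.2.2.2,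
    l0.2.2.2.1, l7.1, l8.1, l0.2.2.2.2.2, l8.2.2.1, l7.2.2.1, h.idem _, l9.2.2.1, l9.1,
    l3.2.1, l10.2.2.2.1, l5.2.2.2.2.2, l5.2.2.2.1, l10.2.2.2.2.2, l3.2.2.2.2.1, l9.2.2.2.1, h.idem _, l9.2.2.2.2.2,
    l2.2.1, l4.2.2.2.2.2, l11.2.1, l4.2.2.2.1, l2.2.2.2.2.1, l11.2.2.2.2.1, l9.2.1, l9.2.2.2.2.1, h.idem _]

theorem chart_inj (h : SQ m) {a b p : α} (t : Aff m a b p) :
    Function.Injective (chart m a b p) := by
  intro u w huw
  by_contra hne
  have key : ∀ s, chart m a b p s = chart m a b p (s + (u - w)) := by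
    intro s
    have h1 := chart_hom h t u (-u - s)
    have h2 := chart_hom h t w (-u - s)
    rw [huw, h2] at h1
    have e1 : -u - (-u - s) = s := by abel
    have e2 : -w - (-u - s) = s + (u - w) := by abel
    rw [e1, e2] at h1
    exact h1.symm
  have hd : u - w ≠ 0 := sub_ne_zero.2 hne
  generalize u - w = d at key hd
  obtain ⟨i, j⟩ := d
  fin_cases i <;> fin_cases j
  · exact hd rfl
  · exact t.pa (key (0, 0)).symm
  · exact t.pa (key (0, 1))
  · exact t.ne (key (0, 0)).symm
  · exact t.pab ((key (0, 1)).trans (key (1, 2)))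
  · exact t.pb (key (0, 1))
  · exact t.ne (key (1, 0))
  · exact t.pb (key (1, 0)).symm
  · exact t.pab ((key (2, 0)).trans (key (1, 2))).symm

/-- the plane generated by a flat triple. -/
def plane [DecidableEq α] (m : α → α → α) (a b p : α) : Finset α := univ.image (chart m a b p)

theorem plane_card [DecidableEq α] (h : SQ m) {a b p : α} (t : Aff m a b p) : (plane m a b p).card = 9 := by
  rw [plane, Finset.card_image_of_injective _ (chart_inj h t)]
  rfl

theorem aff_chart (h : SQ m) {a b p : α} (t : Aff m a b p) {u v w : Fin 3 × Fin 3}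
    (h1 : v ≠ u) (h2 : w ≠ u) (h3 : w ≠ v) (h4 : w ≠ -u - v) :
    Aff m (chart m a b p u) (chart m a b p v) (chart m a b p w) := by
  have hi := chart_inj h t
  have hh := chart_hom h t
  refine ⟨fun e => h1 (hi e), fun e => h2 (hi e), fun e => h3 (hi e), ?_, ?_, ?_, ?_, ?_, ?_, ?_⟩
  · rw [hh]; exact fun e => h4 (hi e)
  all_goals
    simp only [hh]
    congr 1
    obtain ⟨u1, u2⟩ := u
    obtain ⟨v1, v2⟩ := v
    obtain ⟨w1, w2⟩ := w
    clear h1 h2 h3 h4 hi hh t
    simp only [Prod.neg_mk, Prod.mk_sub_mk, Prod.mk.injEq]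
    refine ⟨?_, ?_⟩
    · revert u1 v1 w1; decide
    · revert u2 v2 w2; decide

theorem plane_chart [DecidableEq α] (h : SQ m) {a b p : α} (t : Aff m a b p) {u v w : Fin 3 × Fin 3}
    (h1 : v ≠ u) (h2 : w ≠ u) (h3 : w ≠ v) (h4 : w ≠ -u - v) :
    plane m (chart m a b p u) (chart m a b p v) (chart m a b p w) = plane m a b p := by
  have hh := chart_hom h t
  have t' := aff_chart h t h1 h2 h3 h4
  refine Finset.eq_of_subset_of_card_le ?_ (by rw [plane_card h t, plane_card h t'])
  intro x hx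
  obtain ⟨s, -, rfl⟩ := Finset.mem_image.1 hx
  have hm : ∀ s, chart m a b p s ∈ plane m a b p :=
    fun s => Finset.mem_image_of_mem _ (Finset.mem_univ s)
  have hmm : ∀ x ∈ plane m a b p, ∀ y ∈ plane m a b p, m x y ∈ plane m a b p := by
    intro x hx y hy
    obtain ⟨s, -, rfl⟩ := Finset.mem_image.1 hx
    obtain ⟨r, -, rfl⟩ := Finset.mem_image.1 hy
    rw [hh]
    exact hm _
  have hu := hm u
  have hv := hm v
  have hw := hm w
  generalize chart m a b p u = U at hu
  generalize chart m a b p v = V at hv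
  generalize chart m a b p w = W at hw
  obtain ⟨i, j⟩ := s
  fin_cases i <;> fin_cases j
  · exact hu
  · exact hw
  · exact hmm _ hu _ hw
  · exact hv
  · exact hmm _ hu _ (hmm _ hv _ hw)
  · exact hmm _ (hmm _ hu _ hv) _ hw
  · exact hmm _ hu _ hv
  · exact hmm _ hv _ (hmm _ hu _ hw)
  · exact hmm _ hv _ hw

/-- index pairs. -/
def I2 : Finset ((Fin 3 × Fin 3) × (Fin 3 × Fin 3)) :=
  univ.filter (fun t => t.1 ≠ (0, 0) ∧ t.2 ≠ (0, 0) ∧ t.2 ≠ t.1 ∧ t.2 ≠ -(0, 0) - t.1)

theorem card_I2 : I2.card = 48 := by decide +kernel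

/-- index triples. -/
def I3 : Finset ((Fin 3 × Fin 3) × (Fin 3 × Fin 3) × (Fin 3 × Fin 3)) :=
  univ.filter (fun t => t.2.1 ≠ t.1 ∧ t.2.2 ≠ t.1 ∧ t.2.2 ≠ t.2.1 ∧ t.2.2 ≠ -t.1 - t.2.1)

theorem card_I3 : I3.card = 432 := by decide +kernel

open Classical in
/-- the number of flat triples with given first element is divisible by 48. -/
theorem dvd_48 [Fintype α] (h : SQ m) (a : α) :
    48 ∣ (univ.filter (fun t : α × α => Aff m a t.1 t.2)).card := by
  set T := univ.filter (fun t : α × α => Aff m a t.1 t.2) with hT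
  refine dvd_card_of_classes T (fun t => T.filter (fun t' => plane m a t'.1 t'.2 =
    plane m a t.1 t.2)) 48 ?_ ?_ ?_ ?_
  · intro t ht
    exact Finset.mem_filter.2 ⟨ht, rfl⟩
  · intro t _
    exact Finset.filter_subset _ _
  · rintro ⟨b, p⟩ ht
    have t := (Finset.mem_filter.1 ht).2
    simp only at t ⊢
    have hi := chart_inj h t
    rw [← card_I2]
    have h1 : T.filter (fun t' => plane m a t'.1 t'.2 = plane m a b p) =
        I2.image (fun s => (chart m a b p s.1, chart m a b p s.2)) := by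
      ext ⟨x, y⟩
      simp only [Finset.mem_filter, Finset.mem_image, I2, Finset.mem_univ, true_and, hT]
      constructor
      · rintro ⟨t', hp⟩
        have hx : x ∈ plane m a b p := by
          rw [← hp]; exact Finset.mem_image.2 ⟨(1, 0), Finset.mem_univ _, rfl⟩
        have hy : y ∈ plane m a b p := by
          rw [← hp]; exact Finset.mem_image.2 ⟨(0, 1), Finset.mem_univ _, rfl⟩
        obtain ⟨u, -, rfl⟩ := Finset.mem_image.1 hx
        obtain ⟨v, -, rfl⟩ := Finset.mem_image.1 hy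
        refine ⟨(u, v), ⟨?_, ?_, ?_, ?_⟩, rfl⟩
        · intro e; dsimp only at e; subst e; exact t'.ne rfl
        · intro e; dsimp only at e; subst e; exact t'.pa rfl
        · intro e; dsimp only at e; subst e; exact t'.pb rfl
        · intro e; dsimp only at e; subst e
          refine t'.pab ?_
          have := chart_hom h t (0, 0) u
          exact this.symm
      · rintro ⟨⟨u, v⟩, ⟨h1, h2, h3, h4⟩, he⟩
        simp only [Prod.mk.injEq] at he
        obtain ⟨rfl, rfl⟩ := he
        have q1 := aff_chart h t (u := (0, 0)) (v := u) (w := v) h1 h2 h3 h4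
        have q2 := plane_chart h t (u := (0, 0)) (v := u) (w := v) h1 h2 h3 h4
        have q3 : chart m a b p (0, 0) = a := rfl
        rw [q3] at q1 q2
        exact ⟨q1, q2⟩
    rw [h1, Finset.card_image_of_injective]
    rintro ⟨u, v⟩ ⟨u', v'⟩ he
    simp only [Prod.mk.injEq] at he
    exact Prod.ext (hi he.1) (hi he.2)
  · intro t _ t' ht'
    have h1 := (Finset.mem_filter.1 ht').2
    rw [h1]

open Classical in
/-- the number of flat triples is divisible by 432. -/
theorem dvd_432 [Fintype α] (h : SQ m) :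
    432 ∣ (univ.filter (fun t : α × α × α => Aff m t.1 t.2.1 t.2.2)).card := by
  set T := univ.filter (fun t : α × α × α => Aff m t.1 t.2.1 t.2.2) with hT
  refine dvd_card_of_classes T (fun t => T.filter (fun t' => plane m t'.1 t'.2.1 t'.2.2 =
    plane m t.1 t.2.1 t.2.2)) 432 ?_ ?_ ?_ ?_
  · intro t ht
    exact Finset.mem_filter.2 ⟨ht, rfl⟩
  · intro t _
    exact Finset.filter_subset _ _
  · rintro ⟨a, b, p⟩ ht
    have t := (Finset.mem_filter.1 ht).2
    simp only at t ⊢
    have hi := chart_inj h t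
    rw [← card_I3]
    have h1 : T.filter (fun t' => plane m t'.1 t'.2.1 t'.2.2 = plane m a b p) =
        I3.image (fun s => (chart m a b p s.1, chart m a b p s.2.1, chart m a b p s.2.2)) := by
      ext ⟨z, x, y⟩
      simp only [Finset.mem_filter, Finset.mem_image, I3, Finset.mem_univ, true_and, hT]
      constructor
      · rintro ⟨t', hp⟩
        have hz : z ∈ plane m a b p := by
          rw [← hp]; exact Finset.mem_image.2 ⟨(0, 0), Finset.mem_univ _, rfl⟩
        have hx : x ∈ plane m a b p := by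
          rw [← hp]; exact Finset.mem_image.2 ⟨(1, 0), Finset.mem_univ _, rfl⟩
        have hy : y ∈ plane m a b p := by
          rw [← hp]; exact Finset.mem_image.2 ⟨(0, 1), Finset.mem_univ _, rfl⟩
        obtain ⟨w, -, rfl⟩ := Finset.mem_image.1 hz
        obtain ⟨u, -, rfl⟩ := Finset.mem_image.1 hx
        obtain ⟨v, -, rfl⟩ := Finset.mem_image.1 hy
        refine ⟨(w, u, v), ⟨?_, ?_, ?_, ?_⟩, rfl⟩
        · intro e; dsimp only at e; subst e; exact t'.ne rfl
        · intro e; dsimp only at e; subst e; exact t'.pa rfl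
        · intro e; dsimp only at e; subst e; exact t'.pb rfl
        · intro e; dsimp only at e; subst e
          refine t'.pab ?_
          have := chart_hom h t w u
          exact this.symm
      · rintro ⟨⟨w, u, v⟩, ⟨h1, h2, h3, h4⟩, he⟩
        simp only [Prod.mk.injEq] at he
        obtain ⟨rfl, rfl, rfl⟩ := he
        have q1 := aff_chart h t (u := w) (v := u) (w := v) h1 h2 h3 h4
        have q2 := plane_chart h t (u := w) (v := u) (w := v) h1 h2 h3 h4
        exact ⟨q1, q2⟩
    rw [h1, Finset.card_image_of_injective]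
    rintro ⟨w, u, v⟩ ⟨w', u', v'⟩ he
    simp only [Prod.mk.injEq] at he
    exact Prod.ext (hi he.1) (Prod.ext (hi he.2.1) (hi he.2.2))
  · intro t _ t' ht'
    have h1 := (Finset.mem_filter.1 ht').2
    rw [h1]

end chart

end Pool.Agent.Lib.MP_0a3911_co
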