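import Pool.Agent.Lib.MP_0a3911_co.VRChart
import Pool.Agent.Lib.MP_0a3911_co.VRCount

/-!
# Divisibility conditions for the order of a symmetric van Rees latin square
-/

set_option autoImplicit false

namespace Pool.Agent.Lib.MP_0a3911_co

open Finset

section orbits

variable {α : Type*}

/-- the orbit map of two commuting permutations of order 3. -/
def orb (r e : Equiv.Perm α) (p : α) (u : Fin 3 × Fin 3) : α :=
  (r ^ (u.1 : ℕ) * e ^ (u.2 : ℕ)) p

theorem orb_add {r e : Equiv.Perm α} (hr : r ^ 3 = 1) (he : e ^ 3 = 1) (hc : Commute r e)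
    (p : α) (u w : Fin 3 × Fin 3) : orb r e (orb r e p u) w = orb r e p (u + w) := by
  simp only [orb, Prod.fst_add, Prod.snd_add, Fin.val_add]
  rw [← pow_eq_pow_mod _ hr, ← pow_eq_pow_mod _ he, ← Equiv.Perm.mul_apply]
  congr 1
  have h1 : Commute (e ^ (w.2 : ℕ)) (r ^ (u.1 : ℕ)) := (hc.symm.pow_pow _ _)
  rw [pow_add, pow_add, mul_assoc (r ^ (w.1 : ℕ)), ← mul_assoc (e ^ (w.2 : ℕ)), h1.eq]
  rw [← mul_assoc, ← mul_assoc, (Commute.refl r).pow_pow (w.1 : ℕ) (u.1 : ℕ) |>.eq,
    mul_assoc _ (e ^ (w.2 : ℕ)), (Commute.refl e).pow_pow (w.2 : ℕ) (u.2 : ℕ) |>.eq]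

theorem orb_inj {r e : Equiv.Perm α} (hr : r ^ 3 = 1) (he : e ^ 3 = 1) (hc : Commute r e)
    {p : α} (h1 : r p ≠ p) (h2 : e p ≠ p) (h3 : r (e p) ≠ p) (h4 : r (e (e p)) ≠ p) :
    Function.Injective (orb r e p) := by
  have hadd := orb_add hr he hc p
  have hz : orb r e p (0, 0) = p := by simp [orb]
  have key : ∀ d, orb r e p d = p → orb r e p (d + d) = p := by
    intro d hd
    have := hadd d d
    rw [hd] at this
    rw [← this, hd]
  have e10 : orb r e p (1, 0) = r p := by simp [orb]
  have e01 : orb r e p (0, 1) = e p := by simp [orb]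
  have e11 : orb r e p (1, 1) = r (e p) := by simp [orb]
  have e12 : orb r e p (1, 2) = r (e (e p)) := by
    simp [orb, pow_succ]
  have main : ∀ d, d ≠ 0 → orb r e p d ≠ p := by
    rintro ⟨i, j⟩ hd hp
    have hdd := key _ hp
    fin_cases i <;> fin_cases j
    · exact hd rfl
    · exact h2 (e01 ▸ hp)
    · exact h2 (e01 ▸ hdd)
    · exact h1 (e10 ▸ hp)
    · exact h3 (e11 ▸ hp)
    · exact h4 (e12 ▸ hp)
    · exact h1 (e10 ▸ hdd)
    · exact h4 (e12 ▸ hdd)
    · exact h3 (e11 ▸ hdd)
  intro u w huw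
  by_contra hne
  have h5 := hadd u (-u)
  rw [huw, hadd w (-u), add_neg_cancel] at h5
  refine main (w + -u) ?_ (h5.trans hz)
  rw [← sub_eq_add_neg]
  exact sub_ne_zero.2 (Ne.symm hne)

/-- sizes of sets invariant under two commuting permutations of order 3 acting freely. -/
theorem nine_dvd [DecidableEq α] {r e : Equiv.Perm α} (hr : r ^ 3 = 1) (he : e ^ 3 = 1)
    (hc : Commute r e) (T : Finset α) (hT : ∀ p, p ∈ T ↔ e p ≠ p)
    (h1 : ∀ p ∈ T, r p ≠ p) (h3 : ∀ p ∈ T, r (e p) ≠ p) (h4 : ∀ p ∈ T, r (e (e p)) ≠ p) :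
    9 ∣ T.card := by
  have hadd := orb_add hr he hc
  have hz : ∀ p, orb r e p (0, 0) = p := by intro p; simp [orb]
  refine dvd_card_of_classes T (fun p => univ.image (orb r e p)) 9 ?_ ?_ ?_ ?_
  · intro p _
    exact Finset.mem_image.2 ⟨(0, 0), Finset.mem_univ _, hz p⟩
  · intro p hp x hx
    obtain ⟨u, -, rfl⟩ := Finset.mem_image.1 hx
    rw [hT] at hp ⊢
    intro he'
    refine hp ?_
    have h5 : e (orb r e p u) = orb r e (e p) u := by
      simp only [orb]
      rw [← Equiv.Perm.mul_apply, ← Equiv.Perm.mul_apply]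
      congr 1
      rw [← mul_assoc, (hc.symm.pow_right _).eq, mul_assoc, mul_assoc, ← pow_succ, ← pow_succ']
    rw [h5] at he'
    exact (r ^ (u.1 : ℕ) * e ^ (u.2 : ℕ)).injective he'
  · intro p hp
    rw [Finset.card_image_of_injective _ (orb_inj hr he hc (h1 p hp) ((hT p).1 hp) (h3 p hp)
      (h4 p hp))]
    rfl
  · intro p _ q hq
    obtain ⟨u, -, rfl⟩ := Finset.mem_image.1 hq
    ext x
    simp only [Finset.mem_image, Finset.mem_univ, true_and]
    constructor
    · rintro ⟨w, rfl⟩
      exact ⟨u + w, (hadd p u w).symm⟩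
    · rintro ⟨w, rfl⟩
      refine ⟨w - u, ?_⟩
      rw [hadd]
      congr 1
      abel

end orbits

section main

variable {α : Type*} {m : α → α → α}

theorem SQ.flip (h : SQ m) {x y z : α} : m x y = z ↔ y = m x z := by
  constructor
  · rintro rfl; rw [h.inv]
  · rintro rfl; rw [h.inv]

/-- translations as permutations. -/
def tau (h : SQ m) (a : α) : Equiv.Perm α := ⟨m a, m a, h.inv a, h.inv a⟩

theorem tau_apply (h : SQ m) (a x : α) : tau h a x = m a x := rfl

theorem tau_sq (h : SQ m) (a : α) : tau h a * tau h a = 1 := by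
  ext x; simp [tau_apply, h.inv]

theorem tau_braid (h : VR m) (a b : α) :
    tau h.toSQ a * tau h.toSQ b * tau h.toSQ a = tau h.toSQ b * tau h.toSQ a * tau h.toSQ b := by
  ext x; simp [tau_apply, h.hA a b x]

theorem tau_cube (h : VR m) (a b : α) : (tau h.toSQ a * tau h.toSQ b) ^ 3 = 1 := by
  ext x
  simp only [pow_succ, pow_zero, one_mul, Equiv.Perm.mul_apply, tau_apply, Equiv.Perm.one_apply]
  rw [h.hA b a x, h.inv, h.inv, h.inv]

theorem tau_tau_ne (h : SQ m) {a b : α} (hab : b ≠ a) (p : α) : m a (m b p) ≠ p := by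
  intro e
  rw [h.flip] at e
  exact hab (h.inj' e)

theorem card_three [DecidableEq α] (h : SQ m) {a b : α} (hab : b ≠ a) :
    ({a, b, m a b} : Finset α).card = 3 := by
  refine Finset.card_eq_three.2 ⟨a, b, m a b, hab.symm, ?_, ?_, rfl⟩
  · intro e'; exact hab (h.eq_left e'.symm)
  · intro e'; exact hab (h.eq_right e'.symm).symm

variable [Fintype α] [DecidableEq α]

/-- points whose plane with `a`, `b` is not affine. -/
def NF (m : α → α → α) (a b : α) : Finset α :=
  univ.filter (fun p => m a (m b (m a p)) ≠ m (m a b) p)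

theorem nine_dvd_NF (h : VR m) {a b : α} (hab : b ≠ a) : 9 ∣ (NF m a b).card := by
  set A := tau h.toSQ a with hA
  set B := tau h.toSQ b with hB
  set C := tau h.toSQ (m a b) with hC
  have A2 : A * A = 1 := tau_sq _ _
  have B2 : B * B = 1 := tau_sq _ _
  have C2 : C * C = 1 := tau_sq _ _
  have bAB : A * B * A = B * A * B := tau_braid h a b
  have bCA : C * A * C = A * C * A := tau_braid h _ a
  -- block relations
  have rB : C * B * A = A * B * C := by ext x; simp [A, B, C, tau_apply, h.R2b a b x]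
  have rA : C * A * B = B * A * C := by ext x; simp [A, B, C, tau_apply, h.R2a a b x]
  have rC : B * C * A = A * C * B := by ext x; simp [A, B, C, tau_apply, h.R2 a b x]
  set r := A * B with hr
  set e := C * A * B * A with he
  have hr3 : r ^ 3 = 1 := tau_cube h a b
  have hre : r * e = C * A := by
    calc r * e = (A * B * C) * (A * B * A) := by simp only [hr, he, mul_assoc]
      _ = (C * B * A) * (A * B * A) := by rw [rB]
      _ = C * B * (A * A) * B * A := by simp only [mul_assoc]
      _ = C * (B * B) * A := by rw [A2, mul_one]; simp only [mul_assoc]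
      _ = C * A := by rw [B2, mul_one]
  have her : e * r = C * A := by
    calc e * r = C * A * B * (A * A) * B := by simp only [hr, he, mul_assoc]
      _ = C * A * (B * B) := by rw [A2, mul_one]; simp only [mul_assoc]
      _ = C * A := by rw [B2, mul_one]
  have hc : Commute r e := by rw [Commute, SemiconjBy, hre, her]
  have he3 : e ^ 3 = 1 := by
    have h1 : (r * e) ^ 3 = 1 := by rw [hre]; exact tau_cube h _ a
    rw [hc.mul_pow, hr3, one_mul] at h1
    exact h1
  have hree : r * (e * e) = B * C := by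
    calc r * (e * e) = (r * e) * e := (mul_assoc _ _ _).symm
      _ = C * A * (C * A * B * A) := by rw [hre]
      _ = (C * A * C) * A * B * A := by simp only [mul_assoc]
      _ = (A * C * A) * A * B * A := by rw [bCA]
      _ = A * C * (A * A) * B * A := by simp only [mul_assoc]
      _ = (A * C * B) * A := by rw [A2, mul_one]
      _ = (B * C * A) * A := by rw [rC]
      _ = B * C * (A * A) := by simp only [mul_assoc]
      _ = B * C := by rw [A2, mul_one]
  have hca : a ≠ m a b := by
    intro e'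
    exact hab (h.toSQ.eq_left e'.symm)
  have hcb : m a b ≠ b := by
    intro e'
    exact hab (h.toSQ.eq_right e').symm
  refine nine_dvd hr3 he3 hc (NF m a b) ?_ ?_ ?_ ?_
  · intro p
    simp only [NF, Finset.mem_filter, Finset.mem_univ, true_and]
    have h1 : e p = m (m a b) (m a (m b (m a p))) := rfl
    rw [h1, Ne, Ne, h.toSQ.flip (x := m a b)]
  · intro p _
    exact tau_tau_ne h.toSQ hab p
  · intro p _
    have h1 : r (e p) = (C * A) p := by rw [← hre]; rfl
    rw [h1]
    exact tau_tau_ne h.toSQ hca p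
  · intro p _
    have h1 : r (e (e p)) = (B * C) p := by rw [← hree]; rfl
    rw [h1]
    exact tau_tau_ne h.toSQ hcb p

theorem NF_rot (h : VR m) (a b : α) : NF m b (m a b) = NF m a b := by
  ext p
  simp only [NF, Finset.mem_filter, Finset.mem_univ, true_and]
  rw [not_iff_not, h.toSQ.inv_b b a]
  have hs := h.toSQ
  constructor
  · intro e1
    rw [hs.flip, hs.flip, h.R2b a b p] at e1
    have e2 : m b (m (m a b) p) = m a (m b p) := by rw [e1, hs.inv]
    rw [h.hA a b p, ← e2, hs.inv]
  · intro e1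
    rw [h.hA a b p, hs.flip] at e1
    rw [hs.flip, hs.flip, h.R2b a b p, ← e1, hs.inv]

/-- ordered pairs of distinct elements. -/
def prs (α : Type*) [Fintype α] [DecidableEq α] : Finset (α × α) :=
  univ.filter (fun t => t.2 ≠ t.1)

theorem card_prs : (prs α).card = Fintype.card α * (Fintype.card α - 1) := by
  have h1 : prs α = (univ : Finset α).offDiag := by
    ext ⟨x, y⟩
    simp [prs, eq_comm]
  rw [h1, Finset.offDiag_card, Finset.card_univ, Nat.mul_sub_one]

theorem dvd_27_NF (h : VR m) : 27 ∣ ∑ t ∈ prs α, (NF m t.1 t.2).card := by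
  have h9 : ∀ t ∈ prs α, (NF m t.1 t.2).card = 9 * ((NF m t.1 t.2).card / 9) := by
    intro t ht
    exact (Nat.mul_div_cancel' (nine_dvd_NF h (Finset.mem_filter.1 ht).2)).symm
  rw [Finset.sum_congr rfl h9, ← Finset.mul_sum]
  refine mul_dvd_mul (a := 9) (c := 3) dvd_rfl ?_
  have hs := h.toSQ
  have e1 : ∀ a b, m b (m a b) = a := fun a b => hs.inv_b b a
  have e2 : ∀ a b, m (m a b) a = b := hs.inv_c
  refine dvd_sum_of_classes (prs α)
    (fun t => {(t.1, t.2), (t.2, m t.1 t.2), (m t.1 t.2, t.1)}) _ 3 ?_ ?_ ?_ ?_ ?_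
  · rintro ⟨a, b⟩ _
    simp
  · rintro ⟨a, b⟩ ht x hx
    have hab : b ≠ a := (Finset.mem_filter.1 ht).2
    simp only [Finset.mem_insert, Finset.mem_singleton] at hx
    rcases hx with rfl | rfl | rfl
    · exact ht
    · refine Finset.mem_filter.2 ⟨Finset.mem_univ _, ?_⟩
      exact fun e' => hab (hs.eq_right e').symm
    · refine Finset.mem_filter.2 ⟨Finset.mem_univ _, ?_⟩
      exact fun e' => hab (hs.eq_left e'.symm)
  · rintro ⟨a, b⟩ ht
    have hab : b ≠ a := (Finset.mem_filter.1 ht).2
    refine Finset.card_eq_three.2 ⟨_, _, _, ?_, ?_, ?_, rfl⟩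
    · intro e'; exact hab (Prod.ext_iff.1 e').1.symm
    · intro e'; exact hab (hs.eq_left (Prod.ext_iff.1 e').1.symm)
    · intro e'; exact hab (hs.eq_right (Prod.ext_iff.1 e').1.symm).symm
  · rintro ⟨a, b⟩ _ x hx
    simp only [Finset.mem_insert, Finset.mem_singleton] at hx
    rcases hx with rfl | rfl | rfl
    · rfl
    · simp only [e1]
      ext y
      simp only [Finset.mem_insert, Finset.mem_singleton]
      tauto
    · simp only [e2]
      ext y
      simp only [Finset.mem_insert, Finset.mem_singleton]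
      tauto
  · rintro ⟨a, b⟩ _ x hx
    simp only [Finset.mem_insert, Finset.mem_singleton] at hx
    rcases hx with rfl | rfl | rfl
    · rfl
    · simp only [NF_rot h]
    · have h1 := NF_rot h b (m a b)
      rw [e1 a b] at h1
      simp only [h1, NF_rot h]

open Classical in
theorem count_flat (h : VR m) :
    Fintype.card α * (Fintype.card α * (Fintype.card α - 1)) =
      ∑ t ∈ prs α, (NF m t.1 t.2).card + 3 * (Fintype.card α * (Fintype.card α - 1)) +
      (univ.filter (fun t : α × α × α => Aff m t.1 t.2.1 t.2.2)).card := by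
  have hs := h.toSQ
  have h1 : ∀ t ∈ prs α, Fintype.card α = (NF m t.1 t.2).card + 3 +
      (univ.filter (fun p => Aff m t.1 t.2 p)).card := by
    rintro ⟨a, b⟩ ht
    have hab : b ≠ a := (Finset.mem_filter.1 ht).2
    simp only
    have hd1 : Disjoint (NF m a b) {a, b, m a b} := by
      rw [Finset.disjoint_right]
      intro p hp
      simp only [NF, Finset.mem_filter, Finset.mem_univ, true_and, not_not]
      simp only [Finset.mem_insert, Finset.mem_singleton] at hp
      rcases hp with rfl | rfl | rfl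
      · rw [hs.idem, hs.inv_b, hs.inv_c]
      · rw [hs.inv_b, hs.idem, hs.inv_d]
      · rw [hs.inv, hs.idem, hs.idem]
    have hd2 : Disjoint (NF m a b ∪ {a, b, m a b}) (univ.filter (fun p => Aff m a b p)) := by
      rw [Finset.disjoint_right]
      intro p hp
      have t := (Finset.mem_filter.1 hp).2
      simp only [NF, Finset.mem_union, Finset.mem_filter, Finset.mem_univ, true_and,
        Finset.mem_insert, Finset.mem_singleton, not_or, not_not]
      exact ⟨t.e1, t.pa, t.pb, t.pab⟩
    rw [← card_three hs hab, ← Finset.card_union_of_disjoint hd1,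
      ← Finset.card_union_of_disjoint hd2, ← Finset.card_univ]
    congr 1
    ext p
    simp only [NF, Finset.mem_union, Finset.mem_filter, Finset.mem_univ, true_and,
      Finset.mem_insert, Finset.mem_singleton, true_iff]
    by_cases e1 : m a (m b (m a p)) = m (m a b) p
    · by_cases e2 : p = a ∨ p = b ∨ p = m a b
      · exact Or.inl (Or.inr e2)
      · push Not at e2
        exact Or.inr (h.aff_of hab e2.1 e2.2.1 e2.2.2 e1)
    · exact Or.inl (Or.inl e1)
  have h2 : Fintype.card α * (Fintype.card α * (Fintype.card α - 1)) =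
      ∑ t ∈ prs α, Fintype.card α := by
    rw [Finset.sum_const, card_prs, smul_eq_mul, mul_comm]
  have h3 : (univ.filter (fun t : α × α × α => Aff m t.1 t.2.1 t.2.2)).card =
      ∑ t ∈ prs α, (univ.filter (fun p => Aff m t.1 t.2 p)).card := by
    have h4 : (univ.filter (fun t : α × α × α => Aff m t.1 t.2.1 t.2.2)).card =
        ∑ t : α × α, (univ.filter (fun p => Aff m t.1 t.2 p)).card := by
      simp only [Finset.card_filter, Fintype.sum_prod_type]
    rw [h4, prs, Finset.sum_filter]
    refine Finset.sum_congr rfl ?_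
    rintro ⟨a, b⟩ _
    split_ifs with h5
    · rfl
    · rw [Finset.card_eq_zero, Finset.filter_eq_empty_iff]
      intro p _ t
      exact h5 t.ne
  rw [h2, Finset.sum_congr rfl h1, Finset.sum_add_distrib, Finset.sum_add_distrib,
    Finset.sum_const, card_prs, ← h3, smul_eq_mul, mul_comm 3]

open Classical in
theorem dvd_48' (h : VR m) (v : α) : 48 ∣ (Fintype.card α - 1) * (Fintype.card α - 3) := by
  have hs := h.toSQ
  have h1 := dvd_48 (h.der_sq v) v
  convert h1 using 1
  have h2 : (univ.filter (fun t : α × α => Aff (VR.der m v) v t.1 t.2)).card =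
      ∑ x : α, (univ.filter (fun p => Aff (VR.der m v) v x p)).card := by
    simp only [Finset.card_filter, Fintype.sum_prod_type]
  have h3 : ∀ x : α, (univ.filter (fun p => Aff (VR.der m v) v x p)).card =
      if x ≠ v then Fintype.card α - 3 else 0 := by
    intro x
    split_ifs with hx
    · have h4 : (univ.filter (fun p => Aff (VR.der m v) v x p)) = univ \ {v, x, m v x} := by
        ext p
        simp only [Finset.mem_filter, Finset.mem_univ, true_and, Finset.mem_sdiff,
          Finset.mem_insert, Finset.mem_singleton, not_or]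
        constructor
        · intro t
          have h5 := t.pab
          rw [h.der_v] at h5
          exact ⟨t.pa, t.pb, h5⟩
        · rintro ⟨h5, h6, h7⟩
          exact h.der_aff hx h5 h6 h7
      rw [h4, Finset.card_univ_sdiff, card_three hs hx]
    · rw [Finset.card_eq_zero, Finset.filter_eq_empty_iff]
      intro p _ t
      exact hx t.ne
  rw [h2, Finset.sum_congr rfl (fun x _ => h3 x), ← Finset.sum_filter, Finset.sum_const,
    Finset.filter_ne', Finset.card_erase_of_mem (Finset.mem_univ _), Finset.card_univ, smul_eq_mul]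

theorem two_dvd (h : SQ m) (v : α) : 2 ∣ Fintype.card α - 1 := by
  have h1 : (univ.erase v).card = Fintype.card α - 1 := by
    rw [Finset.card_erase_of_mem (Finset.mem_univ _), Finset.card_univ]
  rw [← h1]
  have hne : ∀ p, p ≠ v → m v p ≠ v := fun p hp e => hp (h.eq_left e)
  have hne' : ∀ p, p ≠ v → m v p ≠ p := fun p hp e => hp (h.eq_right e).symm
  refine dvd_card_of_classes (univ.erase v) (fun p => {p, m v p}) 2 ?_ ?_ ?_ ?_
  · intro p _; simp
  · intro p hp x hx
    have hp' := (Finset.mem_erase.1 hp).1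
    simp only [Finset.mem_insert, Finset.mem_singleton] at hx
    rcases hx with rfl | rfl
    · exact hp
    · exact Finset.mem_erase.2 ⟨hne p hp', Finset.mem_univ _⟩
  · intro p hp
    have hp' := (Finset.mem_erase.1 hp).1
    exact Finset.card_pair (hne' p hp').symm
  · intro p _ q hq
    simp only [Finset.mem_insert, Finset.mem_singleton] at hq
    rcases hq with rfl | rfl
    · rfl
    · simp only [h.inv]
      exact Finset.pair_comm _ _

theorem three_dvd (h : VR m) {a b : α} (hab : b ≠ a) : 3 ∣ Fintype.card α := by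
  have hs := h.toSQ
  rw [← Finset.card_univ]
  have hn : ∀ p, m a (m b p) ≠ p := tau_tau_ne hs hab
  have h3 : ∀ p, m a (m b (m a (m b (m a (m b p))))) = p := by
    intro p
    rw [h.hA a b (m b (m a (m b p))), hs.inv, hs.inv, hs.inv]
  refine dvd_card_of_classes univ
    (fun p => {p, m a (m b p), m a (m b (m a (m b p)))}) 3 ?_ ?_ ?_ ?_
  · intro p _; simp
  · intro p _; exact Finset.subset_univ _
  · intro p _
    refine Finset.card_eq_three.2 ⟨_, _, _, (hn p).symm, ?_, (hn _).symm, rfl⟩
    intro e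
    have h4 := h3 p
    rw [← e] at h4
    exact hn p h4
  · intro p _ q hq
    simp only [Finset.mem_insert, Finset.mem_singleton] at hq
    rcases hq with rfl | rfl | rfl
    · rfl
    · simp only [h3]
      ext y
      simp only [Finset.mem_insert, Finset.mem_singleton]
      tauto
    · simp only [h3]
      ext y
      simp only [Finset.mem_insert, Finset.mem_singleton]
      tauto

theorem arith {n A B : ℕ} (hn : 1 < n) (h2 : 2 ∣ n - 1) (h3 : 3 ∣ n)
    (h48 : 48 ∣ (n - 1) * (n - 3)) (hA : 27 ∣ A) (hB : 432 ∣ B)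
    (hc : n * (n * (n - 1)) = A + 3 * (n * (n - 1)) + B) :
    n % 72 = 3 ∨ n % 72 = 9 ∨ n % 72 = 27 ∨ n % 72 = 57 := by
  obtain ⟨k, rfl⟩ : ∃ k, n = 6 * k + 3 := ⟨n / 6, by omega⟩
  have e1 : 6 * k + 3 - 1 = 6 * k + 2 := by omega
  have e2 : 6 * k + 3 - 3 = 6 * k := by omega
  rw [e1, e2] at h48
  rw [e1] at hc
  obtain ⟨q, hq⟩ := h48
  obtain ⟨A, rfl⟩ := hA
  obtain ⟨B, rfl⟩ := hB
  have h4 : k * (3 * k + 1) = 4 * q := by nlinarith
  have h5 : 4 * (k * (2 * k + 1) * (3 * k + 1)) = 3 * (A + 16 * B) := by nlinarith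
  have h6 : (k * (3 * k + 1)) % 4 = 0 := by rw [h4]; omega
  have h7 : (4 * (k * (2 * k + 1) * (3 * k + 1))) % 3 = 0 := by rw [h5]; omega
  have h8 : k % 4 = 0 ∨ k % 4 = 1 := by
    have : k % 4 < 4 := Nat.mod_lt _ (by norm_num)
    rw [Nat.mul_mod, Nat.add_mod, Nat.mul_mod 3 k] at h6
    interval_cases hk : k % 4 <;> simp_all
  have h9 : k % 3 = 0 ∨ k % 3 = 1 := by
    have : k % 3 < 3 := Nat.mod_lt _ (by norm_num)
    rw [Nat.mul_mod, Nat.mul_mod (k * (2 * k + 1)), Nat.mul_mod k, Nat.add_mod (2 * k),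
      Nat.mul_mod 2 k, Nat.add_mod (3 * k), Nat.mul_mod 3 k] at h7
    interval_cases hk : k % 3 <;> simp_all
  omega

end main

/-- the order of a symmetric square with the property `Pr`. -/
theorem order_of_pr {n : ℕ} (hn : 1 < n) (L : Fin n → Fin n → Fin n)
    (hr : ∀ i, Function.Injective (L i)) (hsymm : ∀ i j, L i j = L j i) (hP : Pr L) :
    n % 72 = 3 ∨ n % 72 = 9 ∨ n % 72 = 27 ∨ n % 72 = 57 := by
  obtain ⟨m, hm⟩ := exists_vr L hr hsymm hP
  have hne : (⟨1, hn⟩ : Fin n) ≠ ⟨0, by omega⟩ := by simp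
  have h1 := two_dvd hm.toSQ (⟨0, by omega⟩ : Fin n)
  have h2 := three_dvd hm hne
  have h3 := dvd_48' hm (⟨0, by omega⟩ : Fin n)
  have h4 := dvd_27_NF hm
  have h5 := dvd_432 hm.toSQ
  have h6 := count_flat hm
  rw [Fintype.card_fin] at h1 h2 h3 h6
  exact arith hn h1 h2 h3 h4 h5 h6

/-- The order of a van Rees latin square isotopic to a symmetric one. -/
theorem order_of_symmetric {n : ℕ} (hn : 1 < n) (L : Fin n → Fin n → Fin n)
    (hr : ∀ i, Function.Injective (L i)) (hcol : ∀ j, Function.Injective (fun i => L i j))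
    (f g : Equiv.Perm (Fin n)) (hsymm : ∀ i j, L (f i) (g j) = L (f j) (g i))
    (hcount : 18 * ((Finset.univ : Finset (Finset (Fin n) × Finset (Fin n))).filter
      (fun p => p.1.card = 3 ∧ p.2.card = 3 ∧
        (Finset.image (fun q : Fin n × Fin n => L q.1 q.2) (p.1 ×ˢ p.2)).card = 3)).card
      = n ^ 2 * (n - 1)) :
    n % 72 = 3 ∨ n % 72 = 9 ∨ n % 72 = 27 ∨ n % 72 = 57 := by
  have hP := pr_of_count L hr hcol hcount
  refine order_of_pr hn (fun i j => L (f i) (g j)) (fun i => (hr (f i)).comp g.injective)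
    hsymm ?_
  intro x y c hxy
  obtain ⟨z, c1, c2, h⟩ := hP (f x) (f y) (g c) (fun e => hxy (f.injective e))
  refine ⟨f.symm z, g.symm c1, g.symm c2, ?_⟩
  simpa only [Equiv.apply_symm_apply] using h

end Pool.Agent.Lib.MP_0a3911_co
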